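import Pool.Agent.R972.OP.Stm3
import Pool.Agent.W578.KH.Core
import Pool.Agent.W695.KH.Final

/-! OP2-CORE (helper972): the Cheeger type inequality from the weak Poincare inequality for
functions with bounded gradient. Adapted from `Pool.Agent.W578.KH.Core`. -/

set_option autoImplicit false

namespace Pool.Agent.R656.OP2

open MeasureTheory Set Filter Topology
open scoped ENNReal InnerProductSpace
open Pool.Agent.W695.KH Pool.Agent.W578.KH

variable {κ : Type} [Fintype κ]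

section core

variable {U : Eu κ → ℝ} {b : Eu κ → Eu κ} {A : ℝ}

lemma core_ineq (hg : S_grad) (hi : S_iter) (hP : Pot U b A) {δ c : ℝ}
    {f : Eu κ → ℝ} {L0 : ℝ} (hW : ∀ v : Eu κ → ℝ, ContDiff ℝ 1 v → (∀ x, |v x| ≤ 1) →
      (∀ x, ‖fderiv ℝ v x‖ ≤ L0) →
      δ ≤ EU U (fun x => v x ^ 2) - EU U v ^ 2 → c ≤ EU U fun x => ‖fderiv ℝ v x‖ ^ 2)
    (hL0 : 1 ≤ L0) (hf : Sm f L0 L0)
    (hm : EU U f = 0) {C1 C2 : ℝ} (hC2 : 0 ≤ C2)
    (g1 : ∀ (σ L : ℝ) (u : Eu κ → ℝ), 0 < σ → σ ≤ 1 → σ ^ 2 * A ≤ 2 → 0 ≤ L → Sm u L (L / σ) →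
      |EU U (fun x => f x * (u x - Kk σ b u x)) -
        σ ^ 2 / 2 * EU U (fun x => fderiv ℝ u x (gradient f x))| ≤ C1 * L * σ ^ 3)
    (g2 : ∀ (σ L : ℝ) (u : Eu κ → ℝ), 0 < σ → σ ≤ 1 → σ ^ 2 * A ≤ 2 → 0 ≤ L → Sm u L (L / σ) →
      |EU U u - EU U (Kk σ b u)| ≤ C2 * L * σ ^ 3)
    (s t : ℝ) (n : ℕ) (hs0 : 0 < s) (hs1 : s ≤ 1) (hsA : s ^ 2 * A ≤ 2) (hsL : s * L0 ≤ 1)
    (hn : n * s ^ 2 = t) (htc : EU U (fun x => f x ^ 2) + 4 * C2 * L0 * t * s < t * c) :
    EU U (fun x => f x ^ 2) ≤ EU U (fun x => f x ^ 2) / 4 + δ + (C2 * L0 * t * s) ^ 2 +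
      4 * C2 * L0 * t * s + √t * EU U (fun x => ‖fderiv ℝ f x‖) +
      s ^ 2 / 2 * L0 * EU U (fun x => ‖fderiv ℝ f x‖) + C1 * L0 * t * s := by
  have hL00 : 0 ≤ L0 := by linarith
  set E1 : ℝ := EU U (fun x => ‖fderiv ℝ f x‖) with hE1
  have hE10 : 0 ≤ E1 := EU_nonneg fun x => norm_nonneg _
  set u : ℕ → Eu κ → ℝ := fun k => (Kk s b)^[k] f with hu
  have hu0 : u 0 = f := rfl
  have husucc : ∀ k, u (k + 1) = Kk s b (u k) := fun k => Function.iterate_succ_apply' _ _ _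
  have hfs : Sm f L0 (L0 / s) := by
    refine ⟨hf.bdd, hf.diff, hf.grad, fun x y => (hf.lip x y).trans ?_⟩
    refine mul_le_mul_of_nonneg_right ?_ (norm_nonneg _)
    rw [le_div_iff₀ hs0]
    nlinarith
  have hSm : ∀ k, Sm (u k) L0 (L0 / s) := fun k => (hi κ U b A hP s L0 f hs0 hsA hL00 hfs k).1
  have hGr : ∀ (k : ℕ) x, k * s ^ 2 * ‖fderiv ℝ (u k) x‖ ^ 2 ≤ 1 :=
    fun k => (hi κ U b A hP s L0 f hs0 hsA hL00 hfs k).2
  have hBC : ∀ k, BC (u k) := fun k => ⟨(hSm k).diff.continuous, 1, (hSm k).bdd⟩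
  have hBCg : ∀ k, BC (fun x => ‖fderiv ℝ (u k) x‖) := fun k =>
    ⟨((hSm k).diff.continuous_fderiv one_ne_zero).norm, L0, fun x => by
      rw [abs_of_nonneg (norm_nonneg _)]; exact (hSm k).grad x⟩
  have hBCf : BC f := hBC 0
  -- gradient bounds
  set G : ℕ → ℝ := fun k => if k = 0 then L0 else 1 / (s * √(k : ℝ)) with hG
  have hG0 : ∀ k, 0 ≤ G k := by
    intro k
    simp only [hG]
    split_ifs
    · exact hL00
    · positivity
  have hGb : ∀ k x, ‖fderiv ℝ (u k) x‖ ≤ G k := by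
    intro k x
    simp only [hG]
    split_ifs with hk
    · exact (hSm k).grad x
    · have hk0 : (0 : ℝ) < k := by exact_mod_cast Nat.pos_of_ne_zero hk
      have h1 := hGr k x
      have hsk : 0 < s * √(k : ℝ) := mul_pos hs0 (Real.sqrt_pos.2 hk0)
      rw [le_div_iff₀ hsk]
      have h2 : (‖fderiv ℝ (u k) x‖ * (s * √(k : ℝ))) ^ 2 ≤ 1 := by
        rw [mul_pow, mul_pow, Real.sq_sqrt hk0.le]
        linarith
      exact (sq_le_one_iff_abs_le_one _).1 h2 |>.trans' (le_abs_self _)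
  -- (a)
  have hA3 : ∀ k, EU U (fun x => f x * (u k x - u (k + 1) x)) ≤
      s ^ 2 / 2 * (G k * E1) + C1 * L0 * s ^ 3 := by
    intro k
    have h1 := g1 s L0 (u k) hs0 hs1 hsA hL00 (hSm k)
    rw [← husucc k] at h1
    have h2 := (abs_le.1 h1).2
    have h3 : EU U (fun x => fderiv ℝ (u k) x (gradient f x)) ≤ G k * E1 := by
      rw [hE1, ← EU_mul]
      unfold EU
      refine (le_abs_self _).trans ?_
      rw [← Real.norm_eq_abs]
      refine (norm_integral_le_integral_norm _).trans ?_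
      have hBC' : BC (fun x => G k * ‖fderiv ℝ f x‖) := (BC.const (G k)).mul (hBCg 0)
      refine integral_mono_of_nonneg (Eventually.of_forall fun x => norm_nonneg _) (hBC'.int hP)
        (Eventually.of_forall fun x => ?_)
      simp only
      rw [norm_mul, Real.norm_eq_abs (Real.exp _), abs_of_pos (Real.exp_pos _)]
      refine mul_le_mul_of_nonneg_right ?_ (Real.exp_pos _).le
      have h4 : ‖gradient f x‖ = ‖fderiv ℝ f x‖ := by
        unfold gradient
        exact LinearIsometryEquiv.norm_map _ _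
      calc ‖fderiv ℝ (u k) x (gradient f x)‖ ≤ ‖fderiv ℝ (u k) x‖ * ‖gradient f x‖ :=
            ContinuousLinearMap.le_opNorm _ _
        _ ≤ G k * ‖fderiv ℝ f x‖ := by
            rw [h4]
            exact mul_le_mul_of_nonneg_right (hGb k x) (norm_nonneg _)
    have h5 : s ^ 2 / 2 * EU U (fun x => fderiv ℝ (u k) x (gradient f x)) ≤
        s ^ 2 / 2 * (G k * E1) := mul_le_mul_of_nonneg_left h3 (by positivity)
    linarith
  have hsumA : ∀ N : ℕ, EU U (fun x => f x ^ 2) - EU U (fun x => f x * u N x) ≤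
      s ^ 2 / 2 * ((∑ k ∈ Finset.range N, G k) * E1) + N * (C1 * L0 * s ^ 3) := by
    intro N
    induction N with
    | zero =>
      have : EU U (fun x => f x * u 0 x) = EU U (fun x => f x ^ 2) := by
        congr 1
        funext x
        rw [hu0, pow_two]
      rw [this]
      simp
    | succ N ih =>
      have h1 := hA3 N
      have h2 : EU U (fun x => f x * (u N x - u (N + 1) x)) =
          EU U (fun x => f x * u N x) - EU U (fun x => f x * u (N + 1) x) := by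
        rw [← EU_sub hP (hBCf.mul (hBC N)) (hBCf.mul (hBC (N + 1)))]
        congr 1
        funext x
        ring
      rw [h2] at h1
      rw [Finset.sum_range_succ]
      push_cast
      have e : s ^ 2 / 2 * ((∑ k ∈ Finset.range N, G k + G N) * E1) +
          (N + 1) * (C1 * L0 * s ^ 3) =
          (s ^ 2 / 2 * ((∑ k ∈ Finset.range N, G k) * E1) + N * (C1 * L0 * s ^ 3)) +
          (s ^ 2 / 2 * (G N * E1) + C1 * L0 * s ^ 3) := by ring
      rw [e]
      linarith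
  -- (b)
  have hmk : ∀ k : ℕ, |EU U (u k)| ≤ k * (C2 * L0 * s ^ 3) := by
    intro k
    induction k with
    | zero => rw [hu0, hm]; simp
    | succ k ih =>
      have h1 := g2 s L0 (u k) hs0 hs1 hsA hL00 (hSm k)
      rw [← husucc k] at h1
      have h2 : |EU U (u (k + 1))| ≤ |EU U (u k)| + |EU U (u k) - EU U (u (k + 1))| := by
        have h3 := abs_sub (EU U (u k)) (EU U (u k) - EU U (u (k + 1)))
        rw [sub_sub_cancel] at h3
        exact h3
      push_cast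
      linarith
  -- (c)
  have hA5 : ∀ k, s ^ 2 * EU U (fun x => ‖fderiv ℝ (u (k + 1)) x‖ ^ 2) ≤
      EU U (fun x => u k x ^ 2) - EU U (fun x => u (k + 1) x ^ 2) + 4 * C2 * L0 * s ^ 3 := by
    intro k
    have hT : ∀ x y : Eu κ, ‖(x - (s ^ 2 / 2) • b x) - (y - (s ^ 2 / 2) • b y)‖ ≤ ‖x - y‖ :=
      hP.contr (s ^ 2 / 2) (by positivity) (by linarith)
    have h1 := (hg κ s L0 (fun y => u k (y - (s ^ 2 / 2) • b y)) hs0 hL00
      (fun x => (hSm k).bdd _) (fun x y => (Sm_lip (hSm k) _ _).trans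
        (mul_le_mul_of_nonneg_left (hT x y) hL00))).2.2.2.2
    have hsq : Sm (fun x => u k x ^ 2) (4 * L0) (4 * L0 / s) := Sm_sq hs0 hL00 hsL (hSm k)
    have hK1 : Sm (Kk s b (fun x => u k x ^ 2)) (4 * L0) (4 * L0 / s) :=
      (hi κ U b A hP s (4 * L0) (fun x => u k x ^ 2) hs0 hsA (by linarith) hsq 1).1
    have hBCK : BC (Kk s b (fun x => u k x ^ 2)) := ⟨hK1.diff.continuous, 1, hK1.bdd⟩
    have h2 : ∀ x, s ^ 2 * ‖fderiv ℝ (u (k + 1)) x‖ ^ 2 ≤
        Kk s b (fun x => u k x ^ 2) x - u (k + 1) x ^ 2 := by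
      intro x
      rw [husucc k]
      exact h1 x
    have h3 : EU U (fun x => s ^ 2 * ‖fderiv ℝ (u (k + 1)) x‖ ^ 2) ≤
        EU U (fun x => Kk s b (fun x => u k x ^ 2) x - u (k + 1) x ^ 2) :=
      EU_mono hP ((BC.const (s ^ 2)).mul (hBCg (k + 1)).sq) (hBCK.sub (hBC (k + 1)).sq) h2
    rw [EU_mul, EU_sub hP hBCK (hBC (k + 1)).sq] at h3
    have h4 := g2 s (4 * L0) (fun x => u k x ^ 2) hs0 hs1 hsA (by linarith) hsq
    have h5 := (abs_le.1 h4).1
    have h6 : C2 * (4 * L0) * s ^ 3 = 4 * C2 * L0 * s ^ 3 := by ring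
    rw [h6] at h5
    linarith
  have hstep : ∀ k, EU U (fun x => u (k + 1) x ^ 2) ≤
      EU U (fun x => u k x ^ 2) + 4 * C2 * L0 * s ^ 3 := by
    intro k
    have h1 := hA5 k
    have h2 : 0 ≤ s ^ 2 * EU U (fun x => ‖fderiv ℝ (u (k + 1)) x‖ ^ 2) :=
      mul_nonneg (by positivity) (EU_nonneg fun x => by positivity)
    linarith
  have hC20 : 0 ≤ 4 * C2 * L0 * s ^ 3 := by positivity
  have hns3 : (n : ℝ) * s ^ 3 = t * s := by rw [← hn]; ring
  -- (d)
  have hd : ∃ k, k ≤ n ∧ EU U (fun x => u k x ^ 2) - EU U (u k) ^ 2 < δ := by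
    by_contra hcon
    push Not at hcon
    have h1 : ∀ N : ℕ, N ≤ n → N * (s ^ 2 * c) ≤
        EU U (fun x => f x ^ 2) - EU U (fun x => u N x ^ 2) + N * (4 * C2 * L0 * s ^ 3) := by
      intro N
      induction N with
      | zero =>
        intro _
        rw [hu0]
        simp
      | succ N ih =>
        intro hN
        have h2 := ih (by omega)
        have h3 := hW (u (N + 1)) (hSm (N + 1)).diff (hSm (N + 1)).bdd (hSm (N + 1)).grad
          (hcon (N + 1) hN)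
        have h4 := hA5 N
        have h5 : s ^ 2 * c ≤ s ^ 2 * EU U (fun x => ‖fderiv ℝ (u (N + 1)) x‖ ^ 2) :=
          mul_le_mul_of_nonneg_left h3 (by positivity)
        push_cast
        linarith
    have h2 := h1 n le_rfl
    have h3 : 0 ≤ EU U (fun x => u n x ^ 2) := EU_nonneg fun x => by positivity
    have h4 : (n : ℝ) * (s ^ 2 * c) = t * c := by rw [← hn]; ring
    have h5 : (n : ℝ) * (4 * C2 * L0 * s ^ 3) = 4 * C2 * L0 * t * s := by
      calc (n : ℝ) * (4 * C2 * L0 * s ^ 3) = 4 * C2 * L0 * (n * s ^ 3) := by ring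
        _ = _ := by rw [hns3]; ring
    rw [h4, h5] at h2
    linarith
  obtain ⟨k, hkn, hk⟩ := hd
  have ht0 : 0 ≤ t := by rw [← hn]; positivity
  have hmk' : EU U (u k) ^ 2 ≤ (C2 * L0 * t * s) ^ 2 := by
    rw [← sq_abs]
    apply pow_le_pow_left₀ (abs_nonneg _)
    refine (hmk k).trans ?_
    have h1 : (k : ℝ) ≤ n := by exact_mod_cast hkn
    calc (k : ℝ) * (C2 * L0 * s ^ 3) ≤ n * (C2 * L0 * s ^ 3) := by gcongr
      _ = C2 * L0 * (n * s ^ 3) := by ring
      _ = _ := by rw [hns3]; ring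
  have hmon : ∀ j : ℕ, EU U (fun x => u (k + j) x ^ 2) ≤
      EU U (fun x => u k x ^ 2) + j * (4 * C2 * L0 * s ^ 3) := by
    intro j
    induction j with
    | zero => simp
    | succ j ih =>
      have h1 := hstep (k + j)
      have e : k + (j + 1) = k + j + 1 := by ring
      rw [e]
      push_cast
      linarith
  have han : EU U (fun x => u n x ^ 2) ≤ δ + (C2 * L0 * t * s) ^ 2 + 4 * C2 * L0 * t * s := by
    have h1 := hmon (n - k)
    rw [Nat.add_sub_cancel' hkn] at h1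
    have h2 : ((n - k : ℕ) : ℝ) ≤ n := by exact_mod_cast Nat.sub_le n k
    have h3 : ((n - k : ℕ) : ℝ) * (4 * C2 * L0 * s ^ 3) ≤ n * (4 * C2 * L0 * s ^ 3) :=
      mul_le_mul_of_nonneg_right h2 hC20
    have h5 : (n : ℝ) * (4 * C2 * L0 * s ^ 3) = 4 * C2 * L0 * t * s := by
      calc (n : ℝ) * (4 * C2 * L0 * s ^ 3) = 4 * C2 * L0 * (n * s ^ 3) := by ring
        _ = _ := by rw [hns3]; ring
    linarith
  -- (e)
  have he : EU U (fun x => f x * u n x) ≤ EU U (fun x => f x ^ 2) / 4 +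
      EU U (fun x => u n x ^ 2) := by
    have h1 : EU U (fun x => f x * u n x) - EU U (fun x => u n x ^ 2) ≤
        EU U (fun x => (1 / 4) * f x ^ 2) := by
      rw [← EU_sub hP (hBCf.mul (hBC n)) (hBC n).sq]
      refine EU_mono hP ((hBCf.mul (hBC n)).sub (hBC n).sq) ((BC.const (1 / 4)).mul hBCf.sq)
        fun x => ?_
      nlinarith [sq_nonneg (f x / 2 - u n x)]
    rw [EU_mul] at h1
    linarith
  -- conclusion
  have hfin := hsumA n
  have hGs : ∑ k ∈ Finset.range n, G k ≤ L0 + 2 * √(n : ℝ) / s := G_sum hs0 hL00 n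
  have h1 : s ^ 2 / 2 * ((∑ k ∈ Finset.range n, G k) * E1) ≤
      s ^ 2 / 2 * ((L0 + 2 * √(n : ℝ) / s) * E1) := by gcongr
  have h2 : s ^ 2 / 2 * ((L0 + 2 * √(n : ℝ) / s) * E1) = s ^ 2 / 2 * L0 * E1 + √t * E1 := by
    have h3 : √t = √(n : ℝ) * s := by
      rw [← hn, Real.sqrt_mul (by positivity), Real.sqrt_sq hs0.le]
    rw [h3]
    field_simp
  have h4 : (n : ℝ) * (C1 * L0 * s ^ 3) = C1 * L0 * t * s := by
    calc (n : ℝ) * (C1 * L0 * s ^ 3) = C1 * L0 * (n * s ^ 3) := by ring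
      _ = _ := by rw [hns3]; ring
  rw [h4] at hfin
  linarith

end core

theorem t_corl : Pool.Agent.R972.OP.S_CORL := by
  have hg : S_grad := Pool.Agent.W695.KH.grad
  have hi : S_iter := Pool.Agent.W695.KH.iter
  have hgen : S_gen := Pool.Agent.W695.KH.gen
  intro κ _ U b A hP _ δ c hδ hc f L M hf hW hm h4
  set a0 : ℝ := EU U (fun x => f x ^ 2) with ha0
  set E1 : ℝ := EU U (fun x => ‖fderiv ℝ f x‖) with hE1
  have ha0p : 0 < a0 := by linarith
  obtain ⟨C1, hC1, g1⟩ := hgen κ U b A hP f L M hf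
  have h1 : Sm (fun _ : Eu κ => (1 : ℝ)) 0 0 := by
    refine ⟨fun _ => by simp, contDiff_const, fun x => by simp, fun x y => by simp⟩
  obtain ⟨C2, hC2, g2⟩ := hgen κ U b A hP (fun _ => 1) 0 0 h1
  set L0 : ℝ := max (max L M) 1 with hL0
  have hL01 : 1 ≤ L0 := le_max_right _ _
  have hf0 : Sm f L0 L0 := by
    refine ⟨hf.bdd, hf.diff, fun x => (hf.grad x).trans ?_, fun x y => (hf.lip x y).trans ?_⟩
    · exact (le_max_left L M).trans (le_max_left _ _)
    · exact mul_le_mul_of_nonneg_right ((le_max_right L M).trans (le_max_left _ _)) (norm_nonneg _)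
  have g2' : ∀ (σ L : ℝ) (u : Eu κ → ℝ), 0 < σ → σ ≤ 1 → σ ^ 2 * A ≤ 2 → 0 ≤ L →
      Sm u L (L / σ) → |EU U u - EU U (Kk σ b u)| ≤ C2 * L * σ ^ 3 := by
    intro σ L u hσ hσ1 hσA hL hu
    have e1 := g2 σ L u hσ hσ1 hσA hL hu
    have hK : Sm (Kk σ b u) L (L / σ) := (hi κ U b A hP σ L u hσ hσA hL hu 1).1
    have hBu : BC u := ⟨hu.diff.continuous, 1, hu.bdd⟩
    have hBK : BC (Kk σ b u) := ⟨hK.diff.continuous, 1, hK.bdd⟩
    have e2 : EU U (fun x => (1 : ℝ) * (u x - Kk σ b u x)) = EU U u - EU U (Kk σ b u) := by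
      rw [EU_mul, one_mul]
      exact EU_sub hP hBu hBK
    have e3 : EU U (fun x => fderiv ℝ u x (gradient (fun _ : Eu κ => (1 : ℝ)) x)) = 0 := by
      have : ∀ x : Eu κ, gradient (fun _ : Eu κ => (1 : ℝ)) x = 0 := fun x => by
        unfold gradient
        simp
      unfold EU
      simp [this]
    rw [e2, e3, mul_zero, sub_zero] at e1
    exact e1
  -- the inequality for fixed `t`
  have key : ∀ t : ℝ, 0 < t → a0 < t * c → a0 / 2 ≤ √t * E1 := by
    intro t ht htc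
    set s : ℕ → ℝ := fun n => √(t / n) with hs
    have hs0 : Tendsto s atTop (𝓝 0) := by
      have h5 : Tendsto (fun n : ℕ => t / (n : ℝ)) atTop (𝓝 0) :=
        tendsto_const_div_atTop_nhds_zero_nat t
      have h6 := (Real.continuous_sqrt.tendsto 0).comp h5
      rw [Real.sqrt_zero] at h6
      exact h6
    have hlim : ∀ g : ℝ → ℝ, Continuous g → Tendsto (fun n => g (s n)) atTop (𝓝 (g 0)) :=
      fun g hg => (hg.tendsto 0).comp hs0
    have ev1 : ∀ᶠ n in atTop, s n < 1 := (tendsto_order.1 hs0).2 1 one_pos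
    have ev2 : ∀ᶠ n in atTop, s n ^ 2 * A < 2 := by
      have h7 := hlim (fun x => x ^ 2 * A) (by fun_prop)
      exact (tendsto_order.1 h7).2 2 (by norm_num)
    have ev3 : ∀ᶠ n in atTop, s n * L0 < 1 := by
      have h7 := hlim (fun x => x * L0) (by fun_prop)
      exact (tendsto_order.1 h7).2 1 (by norm_num)
    have ev4 : ∀ᶠ n in atTop, a0 + 4 * C2 * L0 * t * s n < t * c := by
      have h7 := hlim (fun x => a0 + 4 * C2 * L0 * t * x) (by fun_prop)
      exact (tendsto_order.1 h7).2 (t * c) (by simpa using htc)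
    have hR := hlim (fun x => a0 / 4 + δ + (C2 * L0 * t * x) ^ 2 +
      4 * C2 * L0 * t * x + √t * E1 + x ^ 2 / 2 * L0 * E1 + C1 * L0 * t * x) (by fun_prop)
    have h8 : a0 ≤ a0 / 4 + δ + (C2 * L0 * t * 0) ^ 2 +
      4 * C2 * L0 * t * 0 + √t * E1 + 0 ^ 2 / 2 * L0 * E1 + C1 * L0 * t * 0 := by
      refine ge_of_tendsto hR ?_
      filter_upwards [ev1, ev2, ev3, ev4, eventually_gt_atTop 0] with n e1 e2 e3 e4 e5
      have hn0 : (0 : ℝ) < n := by exact_mod_cast e5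
      have hsn0 : 0 < s n := Real.sqrt_pos.2 (by positivity)
      have hsn2 : (n : ℝ) * s n ^ 2 = t := by
        simp only [hs]
        rw [Real.sq_sqrt (by positivity)]
        field_simp
      exact core_ineq hg hi hP hW hL01 hf0 hm hC2 g1 g2' (s n) t n hsn0 e1.le e2.le e3.le hsn2 e4
    have h9 : a0 ≤ a0 / 4 + δ + √t * E1 := by
      have e : a0 / 4 + δ + (C2 * L0 * t * 0) ^ 2 +
        4 * C2 * L0 * t * 0 + √t * E1 + 0 ^ 2 / 2 * L0 * E1 + C1 * L0 * t * 0 =
        a0 / 4 + δ + √t * E1 := by ring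
      rwa [e] at h8
    linarith
  -- limit `t → a0 / c`
  have hfinal : a0 / 2 ≤ √(a0 / c) * E1 := by
    have h5 : Tendsto (fun t : ℝ => √t * E1) (𝓝[>] (a0 / c)) (𝓝 (√(a0 / c) * E1)) :=
      (Continuous.tendsto (by fun_prop) _).mono_left nhdsWithin_le_nhds
    refine ge_of_tendsto h5 ?_
    filter_upwards [self_mem_nhdsWithin] with t ht
    have ht' : a0 / c < t := ht
    have h6 : 0 < a0 / c := by positivity
    refine key t (h6.trans ht') ?_
    rw [div_lt_iff₀ hc] at ht'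
    exact ht'
  have hE10 : 0 ≤ E1 := EU_nonneg fun x => norm_nonneg _
  have h6 : (a0 / 2) ^ 2 ≤ (√(a0 / c) * E1) ^ 2 := pow_le_pow_left₀ (by positivity) hfinal 2
  rw [mul_pow, Real.sq_sqrt (by positivity)] at h6
  have h7 : a0 * a0 ≤ a0 * (4 / c * E1 ^ 2) := by
    have e : a0 * (4 / c * E1 ^ 2) = 4 * (a0 / c * E1 ^ 2) := by ring
    rw [e]
    nlinarith
  exact le_of_mul_le_mul_left h7 ha0p

end Pool.Agent.R656.OP2
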